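import Pool.Agent.Lib.MP_285a10_al.TwelveNil
import Pool.Agent.Lib.MP_285a10_al.Criterion
import Pool.Agent.Lib.MP_285a10_al.ClassFour

/-!
The least nilpotency index of a nilpotent non-special Jordan algebra is 6.
-/

set_option autoImplicit false

open Pool.Agent.Lib.MP_285a10_al

namespace Pool.Agent.Results.MP_285a10_al.NilpotencyIndex

/-- Let `F` be a field of characteristic different from 2. Every Jordan algebra over `F` in which
all products of five elements vanish is special; and there is a finite-dimensional non-special
Jordan algebra over `F` in which all products of six elements vanish. -/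
theorem result.{u, v, w} (F : Type u) [Field F] (h2 : (2 : F) ≠ 0) :
    (∀ (J : Type v) [NonUnitalNonAssocCommRing J] [Module F J] [IsScalarTower F J J]
      [SMulCommClass F J J],
      IsJordanAlg J → (∀ x : J, IsProd 5 x → x = 0) → IsSpecial.{v} F J) ∧
    (∃ (J : Type u) (_ : NonUnitalNonAssocCommRing J) (_ : Module F J) (_ : IsScalarTower F J J)
      (_ : SMulCommClass F J J),
      Module.Finite F J ∧ IsJordanAlg J ∧ (∀ x : J, IsProd 6 x → x = 0) ∧
        ¬ IsSpecial.{w} F J) := by
  refine ⟨?_, ?_⟩
  · intro J _ _ _ _ hJ h5
    exact ClassFour.isSpecial h2 hJ h5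
  · refine ⟨J12 F, inferInstance, inferInstance, inferInstance, inferInstance, ?_, J12.isJordan,
      fun x hx => J12.isProd_six hx, ?_⟩
    · exact (inferInstance : Module.Finite F (Fin 12 → F))
    · let x : J12 F := Pi.single 0 1
      let y : J12 F := Pi.single 1 1
      let z : J12 F := Pi.single 2 1
      refine not_isSpecial_of h2 x y z ?_ ?_ ?_ ?_
      · apply J12.ext'; intro i; fin_cases i <;> simp [J12.mul_def, x, z]
      · apply J12.ext'; intro i; fin_cases i <;> simp [J12.mul_def, y, z]
      · apply J12.ext'; intro i; fin_cases i <;> simp [J12.mul_def, y, z]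
      · intro h
        have h11 := congrFun h 11
        simp [J12.mul_def, x, y, z] at h11
        exact h2 (by
          have h4 : (2 : F) * 2 = 0 := by linear_combination h11
          exact (mul_self_eq_zero.1 h4))

end Pool.Agent.Results.MP_285a10_al.NilpotencyIndex
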