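import Pool.Agent.Lib.MP_285a10_al.Twelve
import Pool.Agent.Lib.MP_285a10_al.Criterion

/-!
A non-special Jordan algebra of dimension 12 over every field of characteristic not 2.
-/

set_option autoImplicit false

open Pool.Agent.Lib.MP_285a10_al

namespace Pool.Agent.Results.MP_285a10_al.Twelve

/-- Over every field `F` of characteristic different from 2 there is a Jordan algebra of dimension
12 that is not special. -/
theorem result.{u, w} (F : Type u) [Field F] (h2 : (2 : F) ≠ 0) :
    ∃ (J : Type u) (_ : NonUnitalNonAssocCommRing J) (_ : Module F J) (_ : IsScalarTower F J J)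
      (_ : SMulCommClass F J J),
      Module.finrank F J = 12 ∧ IsJordanAlg J ∧ ¬ IsSpecial.{w} F J := by
  refine ⟨J12 F, inferInstance, inferInstance, inferInstance, inferInstance, ?_, J12.isJordan, ?_⟩
  · exact (Module.finrank_fin_fun F : Module.finrank F (Fin 12 → F) = 12)
  · let x : J12 F := Pi.single 0 1
    let y : J12 F := Pi.single 1 1
    let z : J12 F := Pi.single 2 1
    refine not_isSpecial_of h2 x y z ?_ ?_ ?_ ?_
    · apply J12.ext'; intro i; fin_cases i <;> simp [J12.mul_def, x, z]
    · apply J12.ext'; intro i; fin_cases i <;> simp [J12.mul_def, y, z]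
    · apply J12.ext'; intro i; fin_cases i <;> simp [J12.mul_def, y, z]
    · intro h
      have h11 := congrFun h 11
      simp [J12.mul_def, x, y, z] at h11
      exact h2 (by
        have h4 : (2 : F) * 2 = 0 := by linear_combination h11
        exact (mul_self_eq_zero.1 h4))

end Pool.Agent.Results.MP_285a10_al.Twelve
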